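import Mathlib

namespace Pool.Agent.Results.MP_c009d0_co.Three

open Finset Sum Classical

variable {N : Type} [DecidableEq N]

/-- Player `i` is at least as desirable as player `j`. -/
def Ge (W : Finset N → Prop) (i j : N) : Prop :=
  ∀ S, i ∉ S → j ∉ S → W (insert j S) → W (insert i S)

def IsComplete (W : Finset N → Prop) : Prop :=
  (∀ S T, S ⊆ T → W S → W T) ∧ ∀ i j, Ge W i j ∨ Ge W j i

/-- The partial sums of the type of `S`: members at least as desirable as `k`. -/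
noncomputable def ps (W : Finset N → Prop) (S : Finset N) (k : N) : ℕ :=
  (S.filter fun i => Ge W i k).card

def ShiftMin (W : Finset N → Prop) (S : Finset N) : Prop :=
  W S ∧ ∀ T, (∀ k, ps W T k ≤ ps W S k) → ps W T ≠ ps W S → ¬ W T

def Robust (W : Finset N → Prop) (m : ℕ) : Prop :=
  ¬ ∃ j, 1 ≤ j ∧ j ≤ m ∧ ∃ X Y : Fin j → Finset N,
    (∀ p, (univ.filter fun i => p ∈ X i).card = (univ.filter fun i => p ∈ Y i).card) ∧
      (∀ i, W (X i)) ∧ ∀ i, ¬ W (Y i)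

def Good (W : Finset N → Prop) (r m : ℕ) : Prop :=
  ¬ W ∅ ∧ (∀ i, ∃ S, W S ∧ i ∉ S) ∧ IsComplete W ∧ (ps W '' {S | ShiftMin W S}).ncard = r ∧
    Robust W m ∧ ¬ Robust W (m + 1)

lemma step [Fintype N] {W : Finset N → Prop} {r m : ℕ} (h : Good W r m) :
    Good (fun S : Finset (N ⊕ Bool) => inr true ∈ S ∨ inr false ∈ S ∧ W S.toLeft) (r + 1) m := by
  obtain ⟨h0, hv, ⟨mo, co⟩, hr, rb⟩ := h
  set W' := fun S : Finset (N ⊕ Bool) => inr true ∈ S ∨ inr false ∈ S ∧ W S.toLeft with hW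
  have g1 : ∀ i j, Ge W' (inl i) (inl j) ↔ Ge W i j := fun i j =>
    ⟨fun h S a b c => by simpa [hW] using h (S.disjSum {false}) (by simpa) (by simpa) (by simpa [hW]),
      fun h S a b c => by
        simp only [hW, mem_insert, toLeft_insert_inl, reduceCtorEq, false_or] at c ⊢
        exact c.imp_right (And.imp_right (h _ (by simpa) (by simpa)))⟩
  have g2 : ∀ b i, Ge W' (inr b) (inl i) := fun b i S a _ c => by
    cases b <;> simp_all
  have g3 : ∀ b i, ¬ Ge W' (inl i) (inr b) := fun b i h => by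
    obtain ⟨S, a, c⟩ := hv i
    have e : (S.map .inl : Finset (N ⊕ Bool)).toLeft = S := by ext; simp
    simpa [hW] using h (S.map .inl) (by simpa) (by simp) (by cases b <;> simp [hW, a, e])
  have g4 : ∀ b c, Ge W' (inr b) (inr c) ↔ c ≤ b := fun b c => by
    cases b <;> cases c
    · simp [Ge]
    · exact iff_of_false (fun h => (h ∅ (by simp) (by simp) (by simp [hW])).elim (by simp)
        fun h => h0 h.2) (by simp)
    all_goals simp [Ge, hW]
  have c1 : ∀ S k, ps W' S (inl k) = ps W S.toLeft k + S.toRight.card := fun S k => by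
    rw [ps, ← card_toLeft_add_card_toRight]
    congr 2 <;> ext <;> simp [g1, g2]
  have c2 : ∀ S b, ps W' S (inr b) = (S.toRight.filter (b ≤ ·)).card := fun S b => by
    rw [ps, ← card_toLeft_add_card_toRight, card_eq_zero.2 (by ext; simp [g3]), zero_add]
    congr 1; ext; simp [g4]
  have g5 : ∀ x, Ge W' (inr true) x := by simp [g2, g4]
  have cP : ∀ x, ps W' {inr true} x = 1 := by simp [ps, filter_singleton, g5]
  have one : ∀ T, (∀ x, ps W' T x ≤ 1) → W' T → T = {inr true} := fun T a b => by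
    have k : ∀ x ∈ T, ∀ y ∈ T, Ge W' x y → x = y := fun x c y d e =>
      card_le_one.1 (a y) x (mem_filter.2 ⟨c, e⟩) y (mem_filter.2 ⟨d, fun _ _ _ => id⟩)
    obtain b | b := b
    · exact eq_singleton_iff_unique_mem.2 ⟨b, fun x c => (k _ b x c (g5 x)).symm⟩
    · obtain ⟨i, e⟩ := nonempty_iff_ne_empty.2 fun e => h0 (e ▸ b.2)
      cases k _ b.1 _ (mem_toLeft.1 e) (g2 _ _)
  have sm' : ∀ S, ShiftMin W' S ↔ S = {inr true} ∨
      S.toRight = {false} ∧ ShiftMin W S.toLeft := fun S => by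
    constructor
    · rintro ⟨h, h'⟩
      by_cases t : inr true ∈ S
      · exact .inl (one S (fun x => (congrFun (of_not_not (mt (h' {inr true} fun x => (cP x).trans_le
          (card_pos.2 ⟨_, mem_filter.2 ⟨t, g5 x⟩⟩)) (by simp [hW]))) x).ge.trans (cP x).le) h)
      have h := h.resolve_left t
      have e : S.toRight = {false} := by ext b; cases b <;> simp [t, h.1]
      exact .inr ⟨e, h.2, fun T a b c => h' (T.disjSum {false})
        (by rintro (k | b) <;> simp [c1, c2, a, e])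
        (fun e' => b (funext fun k => by simpa [c1, e] using congrFun e' (inl k))) (by simpa [hW])⟩
    · rintro (rfl | ⟨e0, h, h'⟩)
      · exact ⟨by simp [hW], fun T a b c => b (congrArg _ (one T (by simpa [cP] using a) c))⟩
      · refine ⟨.inr ⟨mem_toRight.1 (e0 ▸ mem_singleton_self _), h⟩, fun T a b c => ?_⟩
        have e : inr true ∉ T := fun e => by
          simpa [c2, e0, Finset.Nonempty, Bool.le_iff_imp] using (show 0 < ps W' T (inr true) from
            card_pos.2 ⟨_, mem_filter.2 ⟨e, g5 _⟩⟩).trans_le (a (inr true))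
        have c := c.resolve_left e
        have e' : T.toRight = {false} := by ext b; cases b <;> simp [e, c.1]
        refine h' _ (fun k => by simpa [c1, e', e0] using a (inl k)) (fun k => b ?_) c.2
        ext (x | x) <;> simp [c1, c2, e', k, e0]
  have sm : ∀ A, ShiftMin W A → ShiftMin W' (A.disjSum {false}) := fun A h =>
    (sm' _).2 (.inr (by simpa))
  refine ⟨by simp [hW], ?_, ⟨fun S T a b => b.imp (@a _) fun b =>
    ⟨a b.1, mo _ _ (toLeft_subset_toLeft a) b.2⟩, ?_⟩, ?_, ?_⟩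
  · rintro (i | _ | _)
    · exact ⟨{inr true}, by simp [hW]⟩
    · exact ⟨{inr true}, by simp [hW]⟩
    · obtain ⟨j, e, -, X, -, -, h, -⟩ := of_not_not rb.2
      exact ⟨(X ⟨0, e⟩).disjSum {false}, by simp [hW, h _]⟩
  · rintro (i | i) (j | j) <;> simp [g1, g2, g4, co, le_total]
  · have : ps W' '' {S | ShiftMin W' S} = insert (ps W' {inr true})
        ((fun c => Sum.elim (c + 1) fun b => if b then 0 else 1) ''
          (ps W '' {S | ShiftMin W S})) := by
      have k : ∀ A, ps W' (.disjSum A {false}) =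
          Sum.elim (ps W A + 1) fun b => if b then 0 else 1 := fun A => by
        ext (x | _ | _) <;> simp [c1, c2, filter_singleton]
      refine subset_antisymm ?_ (Set.insert_subset ⟨_, (sm' _).2 (.inl rfl), rfl⟩ ?_)
      · rintro _ ⟨S, h, rfl⟩
        obtain rfl | ⟨a, b⟩ := (sm' S).1 h
        · exact .inl rfl
        · exact .inr ⟨_, ⟨_, b, rfl⟩, by rw [← S.toLeft_disjSum_toRight, a, k, toLeft_disjSum]⟩
      · rintro _ ⟨_, ⟨A, h, rfl⟩, rfl⟩
        exact ⟨_, sm _ h, k A⟩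
    rw [this, Set.ncard_insert_of_notMem, Set.ncard_image_of_injective, hr]
    · exact fun a b e => funext fun k => by simpa using congrFun e (inl k)
    · rintro ⟨c, -, e⟩
      simpa [cP] using congrFun e (inr true)
  · suffices ∀ m, Robust W' m ↔ Robust W m by rwa [this, this]
    refine fun m => not_congr (exists_congr fun j => and_congr_right fun _ =>
      and_congr_right fun _ => ⟨?_, ?_⟩)
    · rintro ⟨X, Y, a, b, c⟩
      have t : ∀ i, inr false ∈ X i ∧ W (X i).toLeft := fun i =>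
        (b i).resolve_left fun e => by
          obtain ⟨i, h⟩ := card_pos.1 ((card_pos.2 ⟨i, mem_filter.2 ⟨mem_univ _, e⟩⟩).trans_eq
            (a (inr true)))
          exact c i (.inl (mem_filter.1 h).2)
      have := a (inr false)
      rw [filter_true_of_mem fun i _ => (t i).1, eq_comm, card_filter_eq_iff] at this
      exact ⟨fun i => (X i).toLeft, fun i => (Y i).toLeft, fun p => by simpa using a (inl p),
        fun i => (t i).2, fun i e => c i (.inr ⟨this i (mem_univ _), e⟩)⟩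
    · rintro ⟨X, Y, a, b, c⟩
      exact ⟨fun i => (X i).disjSum {false}, fun i => (Y i).disjSum {false},
        by rintro (p | p) <;> simp [a], fun i => by simpa [hW] using b i,
        fun i => by simpa [hW] using c i⟩

lemma dc {R : Type} [Fintype N] [Semiring R] {j : ℕ} {X Y : Fin j → Finset N}
    (h : ∀ p, #{i | p ∈ X i} = #{i | p ∈ Y i}) (f : N → R) :
    ∑ i, ∑ p ∈ X i, f p = ∑ i, ∑ p ∈ Y i, f p := by
  have : ∀ X : Fin j → Finset N, ∑ i, ∑ p ∈ X i, f p = ∑ p, #{i | p ∈ X i} • f p := fun X => by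
    rw [sum_congr rfl fun i _ => (sum_ite_mem_eq (X i) f).symm, sum_comm]
    simp [← sum_filter]
  simp only [this, h]

def cnt {n : ℕ} (S : Finset (Fin 4 × Fin n)) (k : Fin 4) : ℤ := ∑ v ∈ S, if v.1 = k then 1 else 0

lemma wt {n : ℕ} (S : Finset (Fin 4 × Fin n)) (g : Fin 4 → ℤ) :
    ∑ v ∈ S, g v.1 = g 0 * cnt S 0 + g 1 * cnt S 1 + g 2 * cnt S 2 + g 3 * cnt S 3 := by
  simp only [cnt, mul_sum, ← sum_add_distrib]
  refine sum_congr rfl fun ⟨a, _⟩ _ => ?_
  fin_cases a <;> simp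

noncomputable def mk {n : ℕ} (P : Fin 4 → Fin n → Prop) : Finset (Fin 4 × Fin n) := {v | P v.1 v.2}

lemma mem_mk {n : ℕ} {P : Fin 4 → Fin n → Prop} {v} : v ∈ mk P ↔ P v.1 v.2 := by simp [mk]

lemma cntU {n : ℕ} (P : Fin 4 → Fin n → Prop) (k : Fin 4) :
    cnt (mk P) k = ∑ r, if P k r then 1 else 0 := by
  rw [cnt, mk, sum_filter, Fintype.sum_prod_type_right]
  refine sum_congr rfl fun r _ => ?_
  rw [sum_eq_single k (fun a _ h => by simp [h]) (by simp)]
  simp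

lemma pick {n : ℕ} (c : Fin 4 → ℕ) (h : ∀ k, c k ≤ n + 1) (σ : Fin 4 → Equiv.Perm (Fin (n + 1)))
    (k : Fin 4) : cnt (mk fun a r => (σ a r).val < c a) k = c k := by
  have := Equiv.sum_comp (σ k) fun r => if r.val < c k then (1 : ℤ) else 0
  rw [cntU]
  refine (sum_congr rfl fun _ _ => by congr).trans (this.trans ?_)
  simp [Fin.card_filter_val_lt, h]

def w (b c d x y z u : ℤ) : Prop := (x + y ≤ b ∧ x + y + z + u ≤ b + 1) ∨
  (x ≤ 0 ∧ x + y ≤ c ∧ x + y + z ≤ b + 1 ∧ x + y + z + u ≤ d) ∨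
  x ≤ 0 ∧ x + y ≤ 1 ∧ x + y + z ≤ 2 ∧ x + y + z + u ≤ b + 2

def G (β : ℕ) (c d : ℤ) (S : Finset (Fin 4 × Fin (β + 2))) : Prop :=
  w β c d (β + 2 - cnt S 0) (β + 2 - cnt S 1) (β + 2 - cnt S 2) (β + 2 - cnt S 3)

lemma c0 {n : ℕ} (S : Finset (Fin 4 × Fin n)) (k) : 0 ≤ cnt S k ∧ cnt S k ≤ n := by
  refine ⟨sum_nonneg fun _ _ => by positivity,
    (sum_le_sum_of_subset_of_nonneg (subset_univ S) fun _ _ _ => by positivity).trans ?_⟩
  have := cntU (n := n) (fun _ _ => True) k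
  simp only [mk, filter_true, cnt] at this
  rw [this]; simp

lemma ci {n : ℕ} (S : Finset (Fin 4 × Fin n)) (i) (h : i ∉ S) (k) :
    cnt (insert i S) k = cnt S k + if i.1 = k then 1 else 0 := by
  rw [cnt, sum_insert h, add_comm]; rfl

lemma dl : ∀ a b : Fin 4, a ≤ b → let e := fun (a k : Fin 4) => if a = k then (1 : ℤ) else 0
    e b 0 ≤ e a 0 ∧ e b 0 + e b 1 ≤ e a 0 + e a 1 ∧ e b 0 + e b 1 + e b 2 ≤ e a 0 + e a 1 + e a 2 ∧
    e b 0 + e b 1 + e b 2 + e b 3 = 1 ∧ e a 0 + e a 1 + e a 2 + e a 3 = 1 ∧ (a ≠ b → e b 0 < e a 0 ∨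
    e b 0 + e b 1 < e a 0 + e a 1 ∨ e b 0 + e b 1 + e b 2 < e a 0 + e a 1 + e a 2) := by decide

lemma ge {β c d : ℕ} (b2 : 2 ≤ β) (h : c = 0 ∧ d = β + 2 ∨ c = β + 1 ∧ d = β + 1) (i j) :
    Ge (G β c d) i j ↔ i.1 ≤ j.1 := by
  constructor
  · intro q
    by_contra! l
    obtain ⟨a, r⟩ := i
    obtain ⟨b, s⟩ := j
    have p := pick (n := β + 1) ![β + 2, β + 1, β + 1, 2] (fun k => by fin_cases k <;> simp)
      fun k => if k = b then .swap s 0 else .swap r (.last _)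
    set S := mk _ with hS
    have x : (b, s) ∈ S := by
      rw [hS, mem_mk, if_pos rfl, Equiv.swap_apply_left]; fin_cases b <;> simp
    have y : (a, r) ∉ S := by
      rw [hS, mem_mk, if_neg l.ne', Equiv.swap_apply_left]
      have : a ≠ 0 := l.ne_zero
      fin_cases a <;> simp at this ⊢
      omega
    clear_value S
    have e := ci (S.erase (b, s)) (b, s) (by simp)
    have e' := ci (S.erase (b, s)) (a, r) (by simp [y])
    have := q (S.erase (b, s)) (by simp [y]) (by simp)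
    rw [insert_erase x] at e this
    obtain ⟨d1, d2, d3, d4, d5, d6⟩ := dl b a l.le
    have d6 := d6 l.ne
    simp only [Fin.forall_fin_succ] at e e' p
    simp at p
    obtain ⟨e0, e1, e2, e3, -⟩ := e
    obtain ⟨f0, f1, f2, f3, -⟩ := e'
    simp only [Fin.succ_zero_eq_one, Fin.succ_one_eq_two, Fin.reduceSucc] at *
    have := this (.inr (.inr (by omega)))
    unfold G w at this
    omega
  · intro l S x y
    obtain ⟨d1, d2, d3, d4, d5, -⟩ := dl _ _ l
    simp only [G, w, ci S i x, ci S j y] at *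
    omega

lemma ple {β c d : ℕ} (b2 : 2 ≤ β) (h : c = 0 ∧ d = β + 2 ∨ c = β + 1 ∧ d = β + 1) (S T) :
    (∀ k, ps (G β c d) S k ≤ ps (G β c d) T k) ↔ cnt S 0 ≤ cnt T 0 ∧
      cnt S 0 + cnt S 1 ≤ cnt T 0 + cnt T 1 ∧
      cnt S 0 + cnt S 1 + cnt S 2 ≤ cnt T 0 + cnt T 1 + cnt T 2 ∧
      cnt S 0 + cnt S 1 + cnt S 2 + cnt S 3 ≤ cnt T 0 + cnt T 1 + cnt T 2 + cnt T 3 := by
  have p : ∀ S k, (ps (G β c d) S k : ℤ) = cnt S 0 + (if 1 ≤ k.1 then cnt S 1 else 0) +
      (if 2 ≤ k.1 then cnt S 2 else 0) + if 3 ≤ k.1 then cnt S 3 else 0 := fun S k => by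
    have := wt S fun a => if a ≤ k.1 then 1 else 0
    simp only [ps, ge b2 h, card_filter]
    push_cast
    simpa using this
  zify
  simp only [p]
  exact ⟨fun h => ⟨by simpa using h (0, 0), by simpa using h (1, 0), by simpa using h (2, 0),
    by simpa using h (3, 0)⟩, fun h ⟨a, _⟩ => by fin_cases a <;> simp [h]⟩

lemma inc {b c d x y z u x' y' z' u' : ℤ} (b2 : 2 ≤ b) (h : c = 0 ∧ d = b + 2 ∨ c = b + 1 ∧ d = b + 1)
    (n : 0 ≤ x' ∧ 0 ≤ y' ∧ 0 ≤ z' ∧ 0 ≤ u') (r : (x = b ∧ y = 0 ∧ z = 1 ∧ u = 0) ∨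
    (x = 0 ∧ y = c ∧ z = b + 1 - c ∧ u = d - b - 1) ∨ x = 0 ∧ y = 1 ∧ z = 1 ∧ u = b)
    (l : x ≤ x' ∧ x + y ≤ x' + y' ∧ x + y + z ≤ x' + y' + z' ∧ x + y + z + u ≤ x' + y' + z' + u')
    (W : w b c d x' y' z' u') : x' = x ∧ y' = y ∧ z' = z ∧ u' = u := by
  rcases h with ⟨rfl, rfl⟩ | ⟨rfl, rfl⟩ <;>
    rcases r with ⟨rfl, rfl, rfl, rfl⟩ | ⟨rfl, rfl, rfl, rfl⟩ | ⟨rfl, rfl, rfl, rfl⟩ <;>
    rcases W with W | W | W <;> omega

lemma gen {β c d : ℕ} (b2 : 2 ≤ β) (h : c = 0 ∧ d = β + 2 ∨ c = β + 1 ∧ d = β + 1) :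
    ¬G β c d ∅ ∧ (∀ i, ∃ S, G β c d S ∧ i ∉ S) ∧ IsComplete (G β c d) ∧
    (ps (G β c d) '' {S | ShiftMin (G β c d) S}).ncard = 3 := by
  have le := ple b2 h
  have ex : ∀ S T, ps (G β c d) S = ps (G β c d) T ↔ cnt S 0 = cnt T 0 ∧ cnt S 1 = cnt T 1 ∧
      cnt S 2 = cnt T 2 ∧ cnt S 3 = cnt T 3 := fun S T => by
    rw [le_antisymm_iff, Pi.le_def, Pi.le_def, le, le]; omega
  have R : ∀ x y z u : ℕ, x ≤ β + 2 → y ≤ β + 2 → z ≤ β + 2 → u ≤ β + 2 →
      ∃ S : Finset (Fin 4 × Fin (β + 2)), cnt S 0 = x ∧ cnt S 1 = y ∧ cnt S 2 = z ∧ cnt S 3 = u :=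
    fun x y z u _ _ _ _ => by
      have := pick (n := β + 1) ![x, y, z, u] (fun k => by fin_cases k <;> simpa) 1
      exact ⟨_, this 0, this 1, this 2, this 3⟩
  obtain ⟨SA, A⟩ := R 2 (β + 2) (β + 1) (β + 2) (by omega) (by omega) (by omega) (by omega)
  obtain ⟨SB, B⟩ := R (β + 2) (β + 2 - c) (c + 1) (2 * β + 3 - d) (by omega) (by omega) (by omega)
    (by omega)
  obtain ⟨SC, C⟩ := R (β + 2) (β + 1) (β + 1) 2 (by omega) (by omega) (by omega) (by omega)
  replace B : cnt SB 0 = β + 2 ∧ cnt SB 1 = β + 2 - c ∧ cnt SB 2 = c + 1 ∧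
    cnt SB 3 = 2 * β + 3 - d := by omega
  have sm : ∀ S, ShiftMin (G β c d) S ↔ ps (G β c d) S = ps (G β c d) SA ∨
      ps (G β c d) S = ps (G β c d) SB ∨ ps (G β c d) S = ps (G β c d) SC := fun S => by
    refine ⟨fun ⟨u, v⟩ => ?_, fun u => ⟨?_, fun T x y z => ?_⟩⟩
    · have := (c0 S 0).2
      have := (c0 S 1).2
      have := (c0 S 2).2
      have := (c0 S 3).2
      clear h
      rcases u with u | u | u
      · exact .inl (by_contra fun n => v SA ((le _ _).2 (by omega)) (Ne.symm n) (.inl (by omega)))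
      · exact .inr (.inl (by_contra fun n => v SB ((le _ _).2 (by omega)) (Ne.symm n)
          (.inr (.inl (by omega)))))
      · exact .inr (.inr (by_contra fun n => v SC ((le _ _).2 (by omega)) (Ne.symm n)
          (.inr (.inr (by omega)))))
    · simp only [ex] at u
      rcases u with u | u | u
      exacts [.inl (by omega), .inr (.inl (by omega)), .inr (.inr (by omega))]
    · simp only [ex] at u
      rw [le] at x
      have := (c0 T 0).2
      have := (c0 T 1).2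
      have := (c0 T 2).2
      have := (c0 T 3).2
      have := inc (x := β + 2 - cnt S 0) (y := β + 2 - cnt S 1) (z := β + 2 - cnt S 2)
        (u := β + 2 - cnt S 3) (by clear h u; omega) (by clear u; omega) (by clear h u; omega)
        (u.imp (fun _ => by clear h u; omega) (Or.imp (fun _ => by clear h u; omega)
          fun _ => by clear h u; omega)) (by clear h u; omega) z
      exact y ((ex _ _).2 (by clear h u; omega))
  refine ⟨by simp [G, w, cnt]; omega, fun i => ⟨univ.erase i, ?_, by simp⟩,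
    ⟨fun S T a => ?_, by simp [ge b2 h, le_total]⟩, ?_⟩
  · have e := ci (univ.erase i) i (by simp)
    have u := fun k => cntU (n := β + 2) (fun _ _ => True) k
    simp only [mk, filter_true, if_true, sum_const, card_univ, Fintype.card_fin, nsmul_eq_mul,
      mul_one] at u
    simp only [insert_erase (mem_univ _), u] at e
    have := e 0
    have := e 1
    have := e 2
    have := e 3
    have := (dl _ _ (le_refl i.1)).2.2.2.1
    clear h A B C
    exact .inl (by omega)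
  · have m : ∀ k, cnt S k ≤ cnt T k := fun k =>
      sum_le_sum_of_subset_of_nonneg a fun _ _ _ => by positivity
    have := m 0
    have := m 1
    have := m 2
    have := m 3
    clear h A B C
    exact Or.imp (fun _ => by omega) (Or.imp (fun _ => by omega) fun _ => by omega)
  · rw [show ps (G β c d) '' _ = {ps (G β c d) SA, ps (G β c d) SB, ps (G β c d) SC} by
      ext; simp only [Set.mem_image, Set.mem_ofPred, sm, Set.mem_insert_iff, Set.mem_singleton_iff]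
      exact ⟨by rintro ⟨S, h, rfl⟩; exact h, by
        rintro (rfl | rfl | rfl)
        exacts [⟨SA, by simp, rfl⟩, ⟨SB, by simp, rfl⟩, ⟨SC, by simp, rfl⟩]⟩]
    refine Set.ncard_eq_three.2 ⟨_, _, _, ?_, ?_, ?_, rfl⟩ <;> rw [Ne, ex] <;> omega

lemma win {b x y z u : ℤ} (b2 : 2 ≤ b) (h : w b 0 (b + 2) x y z u) (y0 : 0 ≤ y) (u0 : 0 ≤ u) :
    let f := x + b * (x + y) + (x + y + z) + (b * b + b - 1) * (x + y + z + u)
    f ≤ b * (b + 1) * (b + 2) ∧ (f = b * (b + 1) * (b + 2) → y + b + 2 - (x + y + z + u) = 1) := by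
  have m : 1 ≤ b * b + b - 1 := by nlinarith
  rcases h with ⟨p, q⟩ | ⟨p, q, r, s⟩ | ⟨p, q, r, s⟩ <;>
  · have := le_mul_of_one_le_left (sub_nonneg.2 (show x + y ≤ _ by assumption)) (show 1 ≤ b by omega)
    have := le_mul_of_one_le_left (sub_nonneg.2 (show x + y + z + u ≤ _ by assumption)) m
    refine ⟨by linarith, fun e => le_antisymm (by linarith) (by linarith)⟩

lemma lose {b x y z u : ℤ} (b2 : 2 ≤ b) (h : ¬w b 0 (b + 2) x y z u) (x0 : 0 ≤ x) (y0 : 0 ≤ y)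
    (z0 : 0 ≤ z) (u0 : 0 ≤ u) :
    let f := x + b * (x + y) + (x + y + z) + (b * b + b - 1) * (x + y + z + u)
    b * (b + 1) * (b + 2) ≤ f ∧ (f = b * (b + 1) * (b + 2) → y + b + 2 - (x + y + z + u) = 0 ∨
      y + b + 2 - (x + y + z + u) = b + 2) := by
  have m : 1 ≤ b * b + b - 1 := by nlinarith
  have m2 : 2 * b ≤ b * b := by nlinarith
  have k : ∀ p s : ℤ, p ≤ x + y → s ≤ x + y + z + u → x + y - p ≤ b * (x + y - p) ∧
      x + y + z + u - s ≤ (b * b + b - 1) * (x + y + z + u - s) := fun p s i j =>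
    ⟨le_mul_of_one_le_left (sub_nonneg.2 i) (by omega), le_mul_of_one_le_left (sub_nonneg.2 j) m⟩
  unfold w at h
  obtain c | c | c | c | c | c : b + 3 ≤ x + y + z + u ∨ b + 2 ≤ x + y + z ∨ b + 1 ≤ x + y ∨
    (1 ≤ x ∧ b + 2 ≤ x + y + z + u) ∨ (2 ≤ x + y ∧ b + 2 ≤ x + y + z + u) ∨
    1 ≤ x + y ∧ 3 ≤ x + y + z ∧ b + 2 ≤ x + y + z + u := by omega
  all_goals clear h
  · obtain ⟨i, j⟩ := k 0 (b + 3) (by omega) c
    exact ⟨by linarith, fun e => by linarith⟩
  · obtain ⟨i, j⟩ := k 0 (b + 2) (by omega) (by omega)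
    exact ⟨by linarith, fun e => .inl (le_antisymm (by linarith) (by linarith))⟩
  · obtain ⟨i, j⟩ := k (b + 1) (b + 1) c (by omega)
    exact ⟨by linarith, fun e => .inr (le_antisymm (by linarith) (by linarith))⟩
  · obtain ⟨i, j⟩ := k 1 (b + 2) (by omega) c.2
    exact ⟨by linarith, fun e => .inl (le_antisymm (by linarith) (by linarith))⟩
  · obtain ⟨i, j⟩ := k 2 (b + 2) c.1 c.2
    exact ⟨by linarith, fun e => by linarith⟩
  · obtain ⟨i, j⟩ := k 1 (b + 2) c.1 c.2.2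
    exact ⟨by linarith, fun e => by linarith⟩

lemma big (β : ℕ) (b2 : 2 ≤ β) : Good (G β (0 : ℕ) (β + 2 : ℕ)) 3 (β + 1) := by
  obtain ⟨a, b, c, d⟩ := gen b2 (.inl ⟨rfl, rfl⟩)
  refine ⟨a, b, c, d, ?_, not_not.2 ?_⟩
  · rintro ⟨j, j1, j2, X, Y, a, b, c⟩
    have s : ∀ k, ∑ i, cnt (X i) k = ∑ i, cnt (Y i) k := fun k => dc a _
    simp only [G, Nat.cast_add, Nat.cast_zero, Nat.cast_ofNat] at b c
    have u := fun i => win (by omega) (b i) (by have := c0 (X i) 1; omega)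
      (by have := c0 (X i) 3; omega)
    have v := fun i => lose (by omega) (c i) (by have := c0 (Y i) 0; omega)
      (by have := c0 (Y i) 1; omega) (by have := c0 (Y i) 2; omega) (by have := c0 (Y i) 3; omega)
    have e := (sum_eq_sum_iff_of_le fun i (_ : i ∈ univ) => (u i).1.trans (v i).1).1
      (by simp only [sum_add_distrib, sum_sub_distrib, ← mul_sum, s])
    have e1 := sum_congr rfl fun i (h : i ∈ univ) => (u i).2 ((u i).1.antisymm (e i h ▸ (v i).1))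
    have e2 : (β + 2 : ℤ) ∣ _ := dvd_sum fun i (h : i ∈ univ) =>
      ((v i).2 ((e i h ▸ (u i).1).antisymm (v i).1)).elim (fun q => (dvd_zero _).trans (dvd_of_eq q.symm))
        fun q => dvd_of_eq q.symm
    simp only [sum_add_distrib, sum_sub_distrib, s] at e1 e2
    rw [e1] at e2
    have := Int.le_of_dvd (by simpa using Nat.lt_of_succ_le j1) e2
    simp at this
    omega
  · obtain ⟨γ, rfl⟩ := Nat.exists_eq_add_of_le' b2
    have o : ∀ r : Fin (γ + 2 + 2), r ≠ 0 → #{x | x = 0 ∨ x = r} = 2 := fun r h => by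
      rw [filter_or, filter_eq', filter_eq']; simp [h.symm]
    refine ⟨γ + 2 + 2, by omega, le_rfl, fun i => mk fun a r => ¬(a = 0 ∧ i = 0 ∧ r ≠ 0 ∧ r ≠ 1 ∨
      a = 1 ∧ i ≠ 0 ∧ r = i ∨ a = 2 ∧ r = i ∨ a = 3 ∧ i ≠ 0 ∧ r ≠ 0 ∧ r ≠ i),
      fun i => mk fun a r => ¬(a = 0 ∧ i ≠ 0 ∧ i ≠ 1 ∧ r = i ∨ a = 1 ∧ i = 1 ∧ r ≠ 0 ∨
      a = 2 ∧ i = 0 ∨ a = 3 ∧ i ≠ 0 ∧ i ≠ 1 ∧ r ≠ 0), ?_, fun i => ?_, fun i => ?_⟩
    · rintro ⟨a, r⟩
      have o : (0 : Fin (γ + 2 + 2)) ≠ 1 := by simp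
      simp only [mem_mk]
      fin_cases a
      · exact card_equiv (.swap 0 r) fun i => by simp [Equiv.swap_apply_def]; grind
      · exact card_equiv (.swap 1 r) fun i => by simp [Equiv.swap_apply_def]; grind
      · exact card_equiv (.swap 0 r) fun i => by simp [Equiv.swap_apply_def]; grind
      · by_cases e : r = 0
        · simp [e]
        · exact card_equiv (.swap 1 r) fun i => by simp [Equiv.swap_apply_def]; grind
    · simp only [G, w, cntU]
      refine i.cases ?_ fun i => ?_ <;> simp [sum_ite, filter_ne', imp_iff_not_or, o] <;> omega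
    · simp only [G, w, cntU]
      refine i.cases ?_ fun i => i.cases ?_ fun i => ?_ <;>
        simp [sum_ite, filter_ne', Fin.succ_succ_ne_one] <;> omega

lemma two {x y z u x' y' z' u' a b c d a' b' c' d' : ℤ} (p : w 2 3 3 x y z u)
    (q : w 2 3 3 x' y' z' u') (r : ¬w 2 3 3 a b c d) (s : ¬w 2 3 3 a' b' c' d')
    (n : (0 ≤ a ∧ 0 ≤ b ∧ 0 ≤ c ∧ 0 ≤ d ∧ d ≤ 4) ∧ 0 ≤ a' ∧ 0 ≤ b' ∧ 0 ≤ c' ∧ 0 ≤ d' ∧ d' ≤ 4)
    (u0 : 0 ≤ u) (u1 : 0 ≤ u') (e : x + x' = a + a' ∧ y + y' = b + b' ∧ z + z' = c + c' ∧ u + u' = d + d') : False := by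
  have k : ∀ {a b c d : ℤ}, ¬w 2 3 3 a b c d → 0 ≤ a ∧ 0 ≤ b ∧ 0 ≤ c ∧ 0 ≤ d ∧ d ≤ 4 →
      (1 ≤ a + b + c ∧ 5 ≤ a + b + c + d) ∨ (3 ≤ a + b + c ∧ 4 ≤ a + b + c + d) ∨
      (2 ≤ a + b ∧ 4 ≤ a + b + c + d) ∨ (1 ≤ a ∧ 4 ≤ a + b + c + d) ∨ 1 ≤ a ∧ 3 ≤ a + b :=
    fun h n => by unfold w at h; omega
  have r := k r n.1
  have s := k s n.2
  clear k
  rcases p with p | p | p <;> rcases q with q | q | q <;> omega

lemma small : Good (G 2 (3 : ℕ) (3 : ℕ)) 3 2 := by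
  obtain ⟨a, b, c, d⟩ := gen le_rfl (.inr ⟨rfl, rfl⟩)
  refine ⟨a, b, c, d, ?_, not_not.2 ?_⟩
  · rintro ⟨j, j1, j2, X, Y, a, b, c⟩
    have s : ∀ k, ∑ i, cnt (X i) k = ∑ i, cnt (Y i) k := fun k => dc a _
    have n : ∀ i, 0 ≤ 2 + 2 - cnt (Y i) 0 ∧ 0 ≤ 2 + 2 - cnt (Y i) 1 ∧ 0 ≤ 2 + 2 - cnt (Y i) 2 ∧
        0 ≤ 2 + 2 - cnt (Y i) 3 ∧ 2 + 2 - cnt (Y i) 3 ≤ 4 := fun i => by
      have := c0 (Y i) 0
      have := c0 (Y i) 1
      have := c0 (Y i) 2
      have := c0 (Y i) 3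
      omega
    have m : ∀ i, 0 ≤ 2 + 2 - cnt (X i) 3 := fun i => by have := c0 (X i) 3; omega
    simp only [G, Nat.cast_ofNat] at b c
    obtain rfl | rfl : j = 1 ∨ j = 2 := by omega
    · simp only [Fin.sum_univ_one] at s
      exact two (b 0) (b 0) (c 0) (c 0) ⟨n 0, n 0⟩ (m 0) (m 0) (by simp [s])
    · simp only [Fin.sum_univ_two] at s
      exact two (b 0) (b 1) (c 0) (c 1) ⟨n 0, n 1⟩ (m 0) (m 1)
        ⟨by linarith [s 0], by linarith [s 1], by linarith [s 2], by linarith [s 3]⟩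
  · refine ⟨3, by omega, le_rfl, ![{(1, 0), (2, 0), (3, 0), (3, 1)}ᶜ,
      {(1, 1), (2, 1), (3, 2), (3, 3)}ᶜ, {(0, 0), (0, 1), (2, 2)}ᶜ],
      ![{(2, 0), (2, 1), (2, 2), (3, 0)}ᶜ, {(0, 0), (3, 1), (3, 2), (3, 3)}ᶜ,
      {(0, 1), (1, 0), (1, 1)}ᶜ], fun p => ?_, ?_, ?_⟩
    · simp only [card_filter, Fin.sum_univ_three]
      revert p
      decide
    all_goals simp only [G, w]; decide

theorem result (r k : ℕ) (hr : 3 ≤ r) (hk : 2 ≤ k) :
    ∃ (N : Type) (_ : Fintype N) (_ : DecidableEq N) (W : Finset N → Prop), ¬W ∅ ∧ W univ ∧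
      IsComplete W ∧ (ps W '' {S | ShiftMin W S}).ncard = r ∧ Robust W k ∧ ¬Robust W (k + 1) := by
  suffices ∃ (N : Type) (_ : Fintype N) (_ : DecidableEq N) (W : Finset N → Prop), Good W r k by
    obtain ⟨N, a, b, W, h⟩ := this
    obtain ⟨j, e, -, X, -, -, u, -⟩ := of_not_not h.2.2.2.2.2
    exact ⟨N, a, b, W, h.1, h.2.2.1.1 _ _ (subset_univ _) (u ⟨0, e⟩), h.2.2⟩
  induction r, hr using Nat.le_induction with
  | base =>
    rcases hk.eq_or_lt with rfl | h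
    · exact ⟨_, inferInstance, _, _, small⟩
    · obtain ⟨β, rfl⟩ := Nat.exists_eq_succ_of_ne_zero (show k ≠ 0 by omega)
      exact ⟨_, inferInstance, _, _, big β (by omega)⟩
  | succ r _ ih =>
    obtain ⟨N, a, b, W, h⟩ := ih
    exact ⟨_, inferInstance, _, _, step h⟩

end Pool.Agent.Results.MP_c009d0_co.Three
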